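import Pool.Agent.Helper95.Cert.Main

/-!
# Exact membership in the theta body has no short certificates

The theta body of a graph with `O(N)` vertices can miss the point `(1/8, …, 1/8)` by less than
`2 ^ (-2 ^ N)`. So neither approximations of polynomial precision nor rational separating
inequalities of polynomial size decide exact membership, and the rational matrices which certify
membership can also need exponentially many digits.
-/

namespace Pool.Agent.Results.MP_0878b7_lc.NoShortCertificates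

open Pool.Agent.Helper95.Cert.NoShortCertificates

/-- **The result.** -/
theorem result :
    (∀ N : ℕ, ∃ n ≤ 4560 + 1000 * N, ∃ G : SimpleGraph (Fin n),
      (fun _ => 1 / 8) ∉ TH G ∧ (fun _ => (1 - (1 / 2) ^ 2 ^ N) / 8) ∈ TH G ∧
      ∀ (w : Fin n → ℤ) (b : ℤ), Separates G w b → 2 ^ 2 ^ N ≤ ∑ i, w i) ∧
    (∀ N : ℕ, ∃ n ≤ 5040 + 3500 * N, ∃ G : SimpleGraph (Fin n), (∃ q, RatWitness G q) ∧
      ∀ Y, Witness G (fun _ => 1 / 8) Y →
        ∀ D : ℕ, 0 < D → (∀ a b, ∃ k : ℤ, (D : ℝ) * Y a b = k) → 2 ^ 2 ^ N ≤ D) ∧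
    (¬ ∃ f : ℕ × List (ℕ × ℕ) → List BInt × BInt, PolyTime f ∧
      ∀ I, (fun _ => 1 / 8) ∉ TH (graphOf I.1 I.2) →
        Separates (graphOf I.1 I.2) (fun i => coef (f I).1 i) (ival (f I).2)) ∧
    (¬ ∃ f : ℕ × List (ℕ × ℕ) → List (List (BInt × List Bool)), PolyTime f ∧
      ∀ I, (∃ q, RatWitness (graphOf I.1 I.2) q) →
        RatWitness (graphOf I.1 I.2) (matOf I.1 (f I))) :=
  ⟨part1, part2, part3, part4⟩

end Pool.Agent.Results.MP_0878b7_lc.NoShortCertificates
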