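import Pool.Agent.Helper7.SC.CircMain

/-!
# Exact membership in the theta body and real circuits with semidefinite gates

The value problem for circuits over the real numbers with the operations `+, -, *, /, √`, sign tests
and gates that solve semidefinite feasibility problems exactly is equivalent, under polynomial-time
many-one reductions, to the exact membership of the vector `(1/8, …, 1/8)` in the theta body of a
graph, to the complement of this problem, and to the comparison of the Lovász numbers of two graphs.
Every problem that can be solved in polynomial time with an oracle for this membership problem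
reduces to it by a many-one reduction. PosSLP, the sum of square roots problem and discounted
stochastic games reduce to it.
-/

open Turing
open scoped InnerProductSpace

namespace Pool.Agent.Results.MP_0878b7_lc.SdpCircuits

/-- **The result.** -/
theorem result :
    (Reduces SdpCircuit TH8 ∧ Reduces TH8 SdpCircuit) ∧
    (Reduces TH8.compl TH8 ∧ Reduces TH8 TH8.compl) ∧
    (∀ A : Problem, TuringReduces A TH8 ↔ Reduces A TH8) ∧
    (Reduces LovaszCompare TH8 ∧ Reduces TH8 LovaszCompare) ∧
    (Reduces PosSLP TH8 ∧ Reduces SumSqrt TH8 ∧ Reduces StochGame TH8 ∧
      ∀ I, ∃! v, GameValues I v) ∧
    (InP TH8 → InP SdpCircuit ∧ InP LovaszCompare ∧ InP PosSLP ∧ InP SumSqrt ∧ InP StochGame) :=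
  main

end Pool.Agent.Results.MP_0878b7_lc.SdpCircuits
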