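import Pool.Agent.Helper92.SU.Main

/-!
# Exact membership in the theta body is equivalent to exact semidefinite feasibility

The exact membership problem for the theta body is polynomial-time equivalent to the exact
feasibility problem of semidefinite programming, and it has the same complexity already for the
single vector `(1/8, …, 1/8)`, where it is the problem of strict vector 8-colouring.
-/

open Pool.Agent.Helper92.SU

namespace Pool.Agent.Results.MP_0878b7_lc.SdpUniversality

/-- **The result.** The four problems exact semidefinite feasibility, strict vector 8-colouring,
exact membership of the vector `(1/8, …, 1/8)` in the theta body, and exact membership in the theta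
body are equivalent under polynomial-time many-one reductions. So each of the last three can be
decided in polynomial time if and only if exact semidefinite feasibility can. -/
theorem result :
    (Reduces SDPFeas VectorColour8 ∧ Reduces VectorColour8 TH8 ∧ Reduces TH8 THMem ∧
      Reduces THMem SDPFeas) ∧
    (InP THMem ↔ InP SDPFeas) ∧ (InP TH8 ↔ InP SDPFeas) ∧ (InP VectorColour8 ↔ InP SDPFeas) :=
  main

end Pool.Agent.Results.MP_0878b7_lc.SdpUniversality
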