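import Pool.Agent.Helper78.TT.DichMain

/-!
# Fixed thresholds: a dichotomy

For every rational `t` with `0 < t < 1/2` the problem whether `(t, …, t)` lies in the theta body of
a given graph is polynomial-time equivalent to exact semidefinite feasibility, even for graphs of
bounded degree without cliques of more than `1/t` vertices. For real `t` outside the interval
`(0, 1/2)` it can be decided in polynomial time. With `k = 1/t` the same dichotomy, with the
threshold `k = 2`, holds for the problem whether the Lovász number of a given graph is at most `k`,
and for strict vector `k`-colouring. For integers `k ≥ 3` the problem whether the Lovász number of a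
graph with stability number `k` is equal to `k` is equivalent to exact semidefinite feasibility.
-/

open Turing
open scoped InnerProductSpace

namespace Pool.Agent.Results.MP_0878b7_lc.ThresholdDichotomy

/-- **The result.** (1) For every rational `t` with `0 < t < 1/2` there is a number `d` such that the
problem whether `(t, …, t)` is in the theta body of a graph is equivalent to exact semidefinite
feasibility under polynomial-time many-one reductions, even for graphs in which no clique has more
than `1/t` vertices and no vertex has more than `d` neighbours. (2) For every real number `t ≤ 0` or
`t ≥ 1/2` it can be decided in polynomial time. (3) For every rational `k > 2` there is a number `d`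
such that the problem whether the Lovász number of a graph is at most `k` (even for graphs in which
no stable set has more than `k` vertices and every vertex has at most `d` non-neighbours), and
strict vector `k`-colouring (even for graphs in which no clique has more than `k` vertices and no
vertex has more than `d` neighbours), are equivalent to exact semidefinite feasibility. (4) For real
`k ≤ 2` (and `k > 1` for vector colouring) they can be decided in polynomial time. (5) For every
integer `k ≥ 3` there is a number `d` such that, for graphs with stability number `k` in which every
vertex has at most `d` non-neighbours, the problem whether the Lovász number is equal to the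
stability number is equivalent to exact semidefinite feasibility. -/
theorem result :
    (∀ t : ℚ, 0 < t → t < 1 / 2 →
      ∃ d, EquivalentOn SDPFeas (THConst t) (CliqueLe (1 / t) ∩ DegreeLe d)) ∧
    (∀ t : ℝ, t ≤ 0 ∨ 1 / 2 ≤ t → InP (THConst t)) ∧
    (∀ k : ℚ, 2 < k → ∃ d, EquivalentOn SDPFeas (LovaszLe k) (StableLe k ∩ CodegreeLe d) ∧
      EquivalentOn SDPFeas (VectorColour k) (CliqueLe k ∩ DegreeLe d)) ∧
    (∀ k : ℝ, k ≤ 2 → InP (LovaszLe k) ∧ (1 < k → InP (VectorColour k))) ∧
    (∀ k : ℕ, 3 ≤ k →
      ∃ d, PromiseEquivalent SDPFeas Tight (StableNum k ∩ CodegreeLe d)) :=
  main

end Pool.Agent.Results.MP_0878b7_lc.ThresholdDichotomy
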